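import Pool.Agent.Helper57.SJ.Stmts

/-! Row NTT: the combination for all directions. -/

set_option autoImplicit false

namespace Pool.Agent.Helper18.SJ

open MeasureTheory Set Filter Topology
open Pool.Agent.Helper57.QZ (Pr tor circ aa Zy Wy Sy Vy Ky Fy pt lin)
open Pool.Agent.Helper57.SJ

lemma ntt_exp (a b : ℝ) :
    ‖Complex.exp (-((a : ℂ) * Complex.I)) - Complex.exp (-((b : ℂ) * Complex.I))‖ ≤ |a - b| := by
  have h1 : Complex.exp (-((a : ℂ) * Complex.I)) - Complex.exp (-((b : ℂ) * Complex.I)) =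
      Complex.exp (-((b : ℂ) * Complex.I)) *
        (Complex.exp (Complex.I * ((b - a : ℝ) : ℂ)) - 1) := by
    rw [mul_sub, mul_one, ← Complex.exp_add]
    congr 2
    push_cast
    ring
  have h2 : ‖Complex.exp (-((b : ℂ) * Complex.I))‖ = 1 := by
    rw [show -((b : ℂ) * Complex.I) = ((-b : ℝ) : ℂ) * Complex.I by push_cast; ring]
    exact Complex.norm_exp_ofReal_mul_I _
  rw [h1, norm_mul, h2, one_mul]
  refine Real.norm_exp_I_mul_ofReal_sub_one_le.trans ?_
  rw [Real.norm_eq_abs, abs_sub_comm]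

/-- the net -/
lemma ntt_net (m : ℕ) (hm : 0 < m) (θ : ℝ) : ∃ r : ℕ, r < m ∧
    ‖Complex.exp (-((θ : ℂ) * Complex.I)) -
      Complex.exp (-(((2 * Real.pi * (r : ℝ) / m : ℝ) : ℂ) * Complex.I))‖ ≤ 2 * Real.pi / m := by
  have hmr : (0 : ℝ) < m := by exact_mod_cast hm
  have hmz : (0 : ℤ) < m := by exact_mod_cast hm
  have hπ := Real.pi_pos
  obtain ⟨k, hk⟩ : ∃ k : ℤ, k = ⌊θ * m / (2 * Real.pi)⌋ := ⟨_, rfl⟩
  obtain ⟨r, hr⟩ : ∃ r : ℕ, (r : ℤ) = k % m := ⟨(k % m).toNat, by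
    rw [Int.toNat_of_nonneg (Int.emod_nonneg _ hmz.ne')]⟩
  have hrm : r < m := by
    have : (r : ℤ) < m := by rw [hr]; exact Int.emod_lt_of_pos _ hmz
    exact_mod_cast this
  refine ⟨r, hrm, ?_⟩
  have hkd : (k : ℝ) = m * ((k / m : ℤ) : ℝ) + r := by
    have h1 := Int.mul_ediv_add_emod k m
    rw [← hr] at h1
    have h2 : ((m : ℤ) * (k / m) + (r : ℤ) : ℤ) = k := h1
    have h3 : (((m : ℤ) * (k / m) + (r : ℤ) : ℤ) : ℝ) = (k : ℝ) := by rw [h2]
    push_cast at h3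
    linarith
  have he : Complex.exp (-(((2 * Real.pi * (r : ℝ) / m : ℝ) : ℂ) * Complex.I)) =
      Complex.exp (-(((2 * Real.pi * (k : ℝ) / m : ℝ) : ℂ) * Complex.I)) := by
    rw [Complex.exp_eq_exp_iff_exists_int]
    refine ⟨k / m, ?_⟩
    have h4 : 2 * Real.pi * (k : ℝ) / m = 2 * Real.pi * ((k / m : ℤ) : ℝ) +
        2 * Real.pi * (r : ℝ) / m := by
      rw [hkd]; field_simp
    rw [h4]
    push_cast
    ring
  rw [he]
  refine (ntt_exp _ _).trans ?_
  have h5 : (k : ℝ) ≤ θ * m / (2 * Real.pi) := by rw [hk]; exact Int.floor_le _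
  have h6 : θ * m / (2 * Real.pi) < k + 1 := by rw [hk]; exact Int.lt_floor_add_one _
  rw [le_div_iff₀ (by positivity)] at h5
  rw [div_lt_iff₀ (by positivity)] at h6
  have h7 : θ - 2 * Real.pi * (k : ℝ) / m = (θ * m - k * (2 * Real.pi)) / m := by
    field_simp
  rw [h7, abs_of_nonneg (div_nonneg (by linarith) hmr.le)]
  apply div_le_div_of_nonneg_right _ hmr.le
  linarith

theorem st_NTT (hCM : ST_CMT) : ST_NTT := by
  classical
  intro δ hδ
  obtain ⟨hδ0, hδ1⟩ := hδ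
  obtain ⟨m, hm⟩ : ∃ m : ℕ, m = ⌈100 / δ⌉₊ := ⟨_, rfl⟩
  have hm1 : 100 / δ ≤ m := by rw [hm]; exact Nat.le_ceil _
  have hmr : (0 : ℝ) < m := lt_of_lt_of_le (by positivity) hm1
  have hmpos : 0 < m := by exact_mod_cast hmr
  have hδ4 : δ / 4 ∈ Ioo (0 : ℝ) 1 := ⟨by linarith, by linarith⟩
  obtain ⟨c, hc, hCM⟩ := hCM (δ / 4) hδ4
  refine ⟨c, hc, ?_⟩
  obtain ⟨H₀, T₀, hH3, hT4, hH₀⟩ := hCM (δ / m) (by positivity)
  refine ⟨H₀, T₀, hH3, hT4, ?_⟩
  intro T hTT H hH hHT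
  have hTpos : 0 < T := by linarith
  obtain ⟨hll, A, hA, hθ⟩ := hH₀ T hTT H hH hHT
  refine ⟨hll, A, hA, ?_⟩
  have hch : ∀ j : ℕ, ∃ E : Set ℝ, E ⊆ Icc T (2 * T) ∧ volume.real E ≤ δ / m * T ∧
      ∀ u ∈ Icc T (2 * T), u ∉ E →
      (∀ t ∈ Icc u (u + H), riemannZeta (pt 1 t) ≠ 0 ∧ ‖riemannZeta (pt 1 t)‖ ≤ (1 + δ / 4) * A ∧
        ‖deriv riemannZeta (pt 1 t) / riemannZeta (pt 1 t)‖ ≤
          (1 + δ / 4) * Real.log (Real.log H)) ∧
      (∃ t ∈ Icc u (u + H), (1 - δ / 4) * A ≤ ‖riemannZeta (pt 1 t)‖ ∧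
        (1 - δ / 4) * Real.log (Real.log H) ≤
          ‖deriv riemannZeta (pt 1 t) / riemannZeta (pt 1 t)‖) ∧
      ∃ t ∈ Icc u (u + H), (1 - δ / 4) * Real.log (Real.log H) ≤
        (Complex.exp (-(((2 * Real.pi * (j : ℝ) / m : ℝ) : ℂ) * Complex.I)) *
          (deriv riemannZeta (pt 1 t) / riemannZeta (pt 1 t))).re :=
    fun j => hθ (2 * Real.pi * (j : ℝ) / m)
  choose E hE using hch
  refine ⟨⋃ j ∈ Finset.range m, E j, ?_, ?_, ?_⟩
  · intro x hx
    rw [Set.mem_iUnion₂] at hx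
    obtain ⟨j, hj, hx⟩ := hx
    exact (hE j).1 hx
  · have h1 : volume.real (⋃ j ∈ Finset.range m, E j) ≤
        ∑ j ∈ Finset.range m, volume.real (E j) := measureReal_biUnion_finset_le _ _
    refine h1.trans ?_
    have h2 : ∑ j ∈ Finset.range m, volume.real (E j) ≤ ∑ _j ∈ Finset.range m, δ / m * T :=
      Finset.sum_le_sum fun j _ => (hE j).2.1
    refine h2.trans ?_
    rw [Finset.sum_const, Finset.card_range, nsmul_eq_mul]
    have : (m : ℝ) * (δ / m * T) = δ * T := by field_simp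
    rw [this]
  · intro u hu huE
    have huj : ∀ j < m, u ∉ E j := by
      intro j hj h
      apply huE
      rw [Set.mem_iUnion₂]
      exact ⟨j, Finset.mem_range.2 hj, h⟩
    obtain ⟨hs, hw, -⟩ := (hE 0).2.2 u hu (huj 0 hmpos)
    have hL0 : 0 < Real.log (Real.log H) := by linarith
    refine ⟨?_, ?_, ?_⟩
    · intro t ht
      obtain ⟨a1, a2, a3⟩ := hs t ht
      refine ⟨a1, a2.trans ?_, a3.trans ?_⟩
      · apply mul_le_mul_of_nonneg_right _ hA.le
        linarith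
      · apply mul_le_mul_of_nonneg_right _ hL0.le
        linarith
    · obtain ⟨t, ht, a1, a2⟩ := hw
      refine ⟨t, ht, le_trans ?_ a1, le_trans ?_ a2⟩
      · apply mul_le_mul_of_nonneg_right _ hA.le
        linarith
      · apply mul_le_mul_of_nonneg_right _ hL0.le
        linarith
    · intro θ
      obtain ⟨r, hr, hnet⟩ := ntt_net m hmpos θ
      obtain ⟨-, -, t, ht, hre⟩ := (hE r).2.2 u hu (huj r hr)
      refine ⟨t, ht, ?_⟩
      obtain ⟨-, -, hLn⟩ := hs t ht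
      obtain ⟨L, hL⟩ : ∃ L : ℂ, L = deriv riemannZeta (pt 1 t) / riemannZeta (pt 1 t) := ⟨_, rfl⟩
      rw [← hL] at hre hLn ⊢
      have h1 : (Complex.exp (-(((2 * Real.pi * (r : ℝ) / m : ℝ) : ℂ) * Complex.I)) * L).re -
          (Complex.exp (-((θ : ℂ) * Complex.I)) * L).re ≤
          2 * Real.pi / m * ((1 + δ / 4) * Real.log (Real.log H)) := by
        rw [← Complex.sub_re, ← sub_mul]
        refine (Complex.re_le_norm _).trans ?_
        rw [norm_mul]
        refine mul_le_mul ?_ hLn (norm_nonneg _) (by positivity)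
        rw [norm_sub_rev]
        exact hnet
      have h2 : 2 * Real.pi / m ≤ 7 * δ / 100 := by
        have hπ : Real.pi < 3.15 := Real.pi_lt_d2
        rw [div_le_iff₀ hmr]
        have h3 : 100 ≤ δ * m := by
          rw [div_le_iff₀ hδ0] at hm1
          linarith
        nlinarith
      have h3 : 2 * Real.pi / m * ((1 + δ / 4) * Real.log (Real.log H)) ≤
          δ / 2 * Real.log (Real.log H) := by
        calc 2 * Real.pi / m * ((1 + δ / 4) * Real.log (Real.log H))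
            ≤ 7 * δ / 100 * ((1 + 1) * Real.log (Real.log H)) := by
              apply mul_le_mul h2 _ (by positivity) (by positivity)
              apply mul_le_mul_of_nonneg_right _ hL0.le
              linarith
          _ ≤ δ / 2 * Real.log (Real.log H) := by nlinarith
      have h4 : (1 - δ) * Real.log (Real.log H) ≤
          (1 - δ / 4) * Real.log (Real.log H) - δ / 2 * Real.log (Real.log H) := by
        nlinarith
      linarith

end Pool.Agent.Helper18.SJ
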